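import Pool.Agent.H29.LA.Targets

/-!
# The abstract theorem (ABS)
-/

set_option autoImplicit false

open Polynomial IntermediateField
open scoped TensorProduct

noncomputable section

namespace Pool.Agent.H63.LA

open Pool.Agent.H29.LA

/-! ### Lifts of polynomials -/

theorem fib_map {K K' : Type} [Field K] [Field K'] (i : K →+* K') (f : K[X][X]) (x : K) :
    (fib f x).map i = fib (f.map (mapRingHom i)) (i x) := by
  unfold fib
  rw [Polynomial.map_map, Polynomial.map_map]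
  congr 1
  ext a
  · simp
  · simp

theorem ram_of_map {K K' : Type} [Field K] [Field K'] (i : K →+* K') (m : ℕ) (f : K[X][X])
    (x z : K) (h : Ram m (f.map (mapRingHom i)) (i x) (i z)) : Ram m f x z := by
  have hi : Function.Injective (mapRingHom i) := Polynomial.map_injective i i.injective
  refine ⟨Polynomial.monic_of_injective hi h.monic, ?_, ?_, ?_⟩
  · rw [← h.deg, natDegree_map_eq_of_injective hi]
  · apply Polynomial.map_injective i i.injective
    rw [fib_map, h.fib, Polynomial.map_pow, Polynomial.map_sub, map_X, map_C]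
  · intro h0
    apply h.smooth
    have h1 : (f.map (mapRingHom i)).eval (C (i z)) = (f.eval (C z)).map i := by
      have h2 : C (i z) = mapRingHom i (C z) := by rw [coe_mapRingHom, map_C]
      rw [h2, eval_map, eval₂_at_apply, coe_mapRingHom]
    rw [h1, derivative_map, eval_map, eval₂_at_apply, h0, map_zero]

theorem exists_lift2 {K K' : Type} [Field K] [Field K'] (i : K →+* K') (f : K'[X][X])
    (h : ∀ a b, (f.coeff a).coeff b ∈ i.range) : ∃ g : K[X][X], g.map (mapRingHom i) = f := by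
  rw [← mem_lifts, lifts_iff_coeff_lifts]
  intro a
  have h1 : f.coeff a ∈ lifts i := (lifts_iff_coeff_lifts _).2 fun b => h a b
  obtain ⟨q, hq⟩ := (mem_lifts _).1 h1
  exact ⟨q, hq⟩

theorem kap_map {K K' : Type} [Field K] [Field K'] (i : K →+* K') (D : K[X]) (x₀ : K)
    [DecidablePred fun a : K => a ≠ x₀] [DecidablePred fun a : K' => a ≠ i x₀] (hD : D.Splits) :
    i (D.leadingCoeff * ((D.roots.filter (fun a => a ≠ x₀)).map (fun a => x₀ - a)).prod) =
      (D.map i).leadingCoeff *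
        (((D.map i).roots.filter (fun a => a ≠ i x₀)).map (fun a => i x₀ - a)).prod := by
  rw [map_mul, leadingCoeff_map, hD.roots_map i, map_multiset_prod, Multiset.map_map,
    Multiset.filter_map, Multiset.map_map]
  congr 2
  apply Multiset.map_congr
  · apply Multiset.filter_congr
    intro a _
    simp only [Function.comp_apply, ne_eq, i.injective.eq_iff]
  · intro a _
    simp only [Function.comp_apply, map_sub]

/-! ### Permutations -/

theorem exists_perm {Ω : Type} {m : ℕ} (z : Fin m → Ω) (hz : Function.Injective z) (g : Ω → Ω)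
    (hg : Function.Injective g) (h : ∀ i, ∃ j, g (z i) = z j) :
    ∃ σ : Equiv.Perm (Fin m), ∀ i, g (z i) = z (σ i) := by
  choose s hs using h
  have hinj : Function.Injective s := fun i j hij => hz (hg (by rw [hs, hs, hij]))
  exact ⟨Equiv.ofBijective s (Finite.injective_iff_bijective.1 hinj), hs⟩

theorem sum_perm {A : Type} [AddCommMonoid A] {m : ℕ} (σ : Equiv.Perm (Fin m))
    (O : Finset (Fin m)) (hO : ∀ i ∈ O, σ i ∈ O) (φ : Fin m → A) :
    ∑ i ∈ O, φ (σ i) = ∑ i ∈ O, φ i := by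
  have h1 : O.map σ.toEmbedding = O := by
    refine Finset.eq_of_subset_of_card_le ?_ (by rw [Finset.card_map])
    intro j hj
    obtain ⟨i, hi, rfl⟩ := Finset.mem_map.1 hj
    exact hO i hi
  conv_rhs => rw [← h1]
  rw [Finset.sum_map]
  rfl

/-! ### Points near `x₀` -/

theorem near_ne {K : Type} [Field K] {Γ₀ : Type} [LinearOrderedCommGroupWithZero Γ₀]
    (v : Valuation K Γ₀) (P : K[X]) (hP : P ≠ 0) (x₀ : K) :
    ∃ c : K, c ≠ 0 ∧ ∀ x, x ≠ x₀ → v (x - x₀) < v c → P.eval x ≠ 0 := by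
  classical
  have hmem : ∀ x, x ≠ x₀ → P.eval x = 0 → x ∈ P.roots.toFinset.erase x₀ := by
    intro x hx h0
    rw [Finset.mem_erase, Multiset.mem_toFinset, mem_roots hP]
    exact ⟨hx, h0⟩
  by_cases h : (P.roots.toFinset.erase x₀).Nonempty
  · obtain ⟨r, hr, hmin⟩ := Finset.exists_min_image _ (fun r => v (r - x₀)) h
    refine ⟨r - x₀, sub_ne_zero.2 (Finset.ne_of_mem_erase hr), fun x hx hlt h0 => ?_⟩
    exact absurd hlt (not_lt.2 (hmin x (hmem x hx h0)))
  · refine ⟨1, one_ne_zero, fun x hx _ h0 => ?_⟩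
    exact h ⟨x, hmem x hx h0⟩

theorem exists_gal (F Ω : Type) [Field F] [Field Ω] [Algebra F Ω] [IsGalois F Ω]
    (E : IntermediateField F Ω) [FiniteDimensional F E] :
    ∃ M : IntermediateField F Ω, E ≤ M ∧ FiniteDimensional F M ∧ IsGalois F M := by
  refine ⟨IntermediateField.normalClosure F E Ω, IntermediateField.le_normalClosure E,
    inferInstance, ?_⟩
  exact ⟨⟩

/-- the roots of a fibre -/
theorem exists_roots {K : Type} [Field K] [IsSepClosed K] (m : ℕ) (p : K[X]) (hp : p.Monic)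
    (hd : p.natDegree = m) (hs : p.Separable) :
    ∃ z : Fin m → K, Function.Injective z ∧ p = ∏ i, (X - C (z i)) := by
  classical
  have hsp : p.Splits := IsSepClosed.splits_of_separable p hs
  have hnd : p.roots.Nodup := nodup_roots hs
  have hcard : p.roots.toFinset.card = m := by
    rw [Multiset.toFinset_card_of_nodup hnd, ← hsp.natDegree_eq_card_roots, hd]
  have e : Fin m ≃ p.roots.toFinset := (Finset.equivFinOfCardEq hcard).symm
  refine ⟨fun i => (e i : K), fun i j h => e.injective (Subtype.ext h), ?_⟩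
  have h1 : p = (p.roots.map fun a => X - C a).prod := by
    have := hsp.eq_prod_roots
    rw [hp.leadingCoeff, C_1, one_mul] at this
    exact this
  have h2 : ∏ i, (X - C (e i : K)) = ∏ a ∈ p.roots.toFinset, (X - C a) := by
    exact (e.prod_comp fun a : p.roots.toFinset => X - C (a : K)).trans
      (Finset.prod_coe_sort p.roots.toFinset fun a => X - C a)
  have h3 : ∏ a ∈ p.roots.toFinset, (X - C a) = (p.roots.map fun a => X - C a).prod := by
    change (p.roots.toFinset.val.map fun a => X - C a).prod = _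
    rw [Multiset.toFinset_val, hnd.dedup]
  rw [h2, h3]
  exact h1

/-- the abstract theorem -/
theorem pf_ABS (hPNT : T_PNT) (hDSC : T_DSC) (hTRC : T_TRC) (hORB : T_ORB) (hAVG : T_AVG) :
    T_ABS := by
  intro F Ω _ _ _ _ _ _ m f x₀ z₀ L A _ _ ψ Γ₀ _ v Γ hfg hm hmF hRam hdf hDS hL hcoef hdisc hψ hv
    hNT hΓ hodd hfin
  classical
  obtain ⟨E₁, hE₁fin, hE₁⟩ := hTRC F Ω Γ A hdisc hfin
  obtain ⟨M₀, hM₀fin, hM₀⟩ := hodd
  have hdeg := hRam.deg
  have hm0 : 0 < m := by omega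
  have h2Ω : (2 : F) ≠ 0 → (2 : Ω) ≠ 0 := by
    intro h h0
    apply h
    apply (algebraMap F Ω).injective
    rw [map_ofNat, map_zero, h0]
  -- the discriminant
  obtain ⟨D, S, s₀, hD0, hDsp, hDS2⟩ : ∃ (D S : Polynomial Ω) (s₀ : Ω), D ≠ 0 ∧ D.Splits ∧
      ((2 : F) ≠ 0 → f.discr = D * S ^ 2 ∧ s₀ ^ 2 = D.leadingCoeff *
        ((D.roots.filter (fun a => a ≠ x₀)).map (fun a => x₀ - a)).prod) := by
    by_cases h2 : (2 : F) = 0
    · exact ⟨1, 1, 1, one_ne_zero, Splits.one, fun h => absurd h2 h⟩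
    · obtain ⟨D, S, hDsp, hDeq⟩ := hDS h2
      have : NeZero ((2 : ℕ) : Ω) := ⟨by exact_mod_cast h2Ω h2⟩
      obtain ⟨s₀, hs₀⟩ := IsSepClosed.exists_pow_nat_eq (D.leadingCoeff *
        ((D.roots.filter (fun a => a ≠ x₀)).map (fun a => x₀ - a)).prod) 2
      refine ⟨D, S, s₀, ?_, hDsp, fun _ => ⟨hDeq, hs₀⟩⟩
      rintro rfl
      rw [zero_mul] at hDeq
      exact hdf hDeq
  -- the field `M`
  set T : Finset Ω := insert x₀ (insert z₀ (insert s₀ (D.coeffs ∪ (S.coeffs ∪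
    D.roots.toFinset)))) with hT
  set E₂ : IntermediateField F Ω := E₁ ⊔ (M₀ ⊔ (L ⊔ adjoin F (T : Set Ω))) with hE₂
  have hE₂fin : FiniteDimensional F E₂ := by
    have h2 : FiniteDimensional F (adjoin F (T : Set Ω)) :=
      finiteDimensional_adjoin fun x _ => Algebra.IsIntegral.isIntegral x
    infer_instance
  obtain ⟨M, hEM, hMfin, hMgal⟩ := exists_gal F Ω E₂
  have hE₁M : E₁ ≤ M := le_sup_left.trans hEM
  have hM₀M : M₀ ≤ M := (le_sup_left.trans le_sup_right).trans hEM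
  have hLM : L ≤ M := (le_sup_left.trans (le_sup_right.trans le_sup_right)).trans hEM
  have hTM : ∀ t ∈ T, t ∈ M := fun t ht =>
    hEM ((le_sup_right.trans (le_sup_right.trans le_sup_right) : adjoin F (T : Set Ω) ≤ E₂)
      (subset_adjoin F _ ht))
  have hx₀M : x₀ ∈ M := hTM _ (Finset.mem_insert_self _ _)
  have hz₀M : z₀ ∈ M := hTM _ (Finset.mem_insert_of_mem (Finset.mem_insert_self _ _))
  have hs₀M : s₀ ∈ M := hTM _ (Finset.mem_insert_of_mem (Finset.mem_insert_of_mem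
    (Finset.mem_insert_self _ _)))
  have hTu : ∀ t ∈ D.coeffs ∪ (S.coeffs ∪ D.roots.toFinset), t ∈ M := fun t ht =>
    hTM _ (Finset.mem_insert_of_mem (Finset.mem_insert_of_mem (Finset.mem_insert_of_mem ht)))
  have hDc : ∀ n, D.coeff n ∈ M := by
    intro n
    by_cases h0 : D.coeff n = 0
    · rw [h0]
      exact M.zero_mem
    · exact hTu _ (Finset.mem_union_left _ (coeff_mem_coeffs h0))
  have hSc : ∀ n, S.coeff n ∈ M := by
    intro n
    by_cases h0 : S.coeff n = 0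
    · rw [h0]
      exact M.zero_mem
    · exact hTu _ (Finset.mem_union_right _ (Finset.mem_union_left _ (coeff_mem_coeffs h0)))
  have hDr : ∀ a ∈ D.roots, a ∈ M := fun a ha =>
    hTu _ (Finset.mem_union_right _ (Finset.mem_union_right _ (Multiset.mem_toFinset.2 ha)))
  -- the data over `M`
  set i : M →+* Ω := algebraMap M Ω with hi
  have hrange : ∀ a, a ∈ M → a ∈ i.range := fun a ha => ⟨⟨a, ha⟩, rfl⟩
  obtain ⟨fM, hfM⟩ := exists_lift2 i f fun a b => hrange _ (hLM (hcoef a b))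
  obtain ⟨DM, hDM⟩ := (mem_lifts D).1 ((lifts_iff_coeff_lifts D).2 fun n =>
    (hrange _ (hDc n) : D.coeff n ∈ Set.range i))
  obtain ⟨SM, hSM⟩ := (mem_lifts S).1 ((lifts_iff_coeff_lifts S).2 fun n =>
    (hrange _ (hSc n) : S.coeff n ∈ Set.range i))
  obtain ⟨xM, hxM⟩ : ∃ xM : M, i xM = x₀ := hrange _ hx₀M
  obtain ⟨zM, hzM⟩ : ∃ zM : M, i zM = z₀ := hrange _ hz₀M
  obtain ⟨sM, hsM⟩ : ∃ sM : M, i sM = s₀ := hrange _ hs₀M
  have hRamM : Ram m fM xM zM := by
    apply ram_of_map i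
    rw [hfM, hxM, hzM]
    exact hRam
  have hDM0 : DM ≠ 0 := by
    intro h
    apply hD0
    rw [← hDM, h, Polynomial.map_zero]
  have hDMsp : DM.Splits := by
    refine Splits.of_splits_map i (by rw [hDM]; exact hDsp) fun a ha => ?_
    rw [hDM] at ha
    exact hrange _ (hDr a ha)
  have hkap : (2 : F) ≠ 0 → ∃ s : M, s ^ 2 = DM.leadingCoeff *
      ((DM.roots.filter (fun a => a ≠ xM)).map (fun a => xM - a)).prod := by
    intro h2
    refine ⟨sM, ?_⟩
    apply i.injective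
    rw [kap_map i DM xM hDMsp, hDM, hxM, map_pow, hsM]
    exact (hDS2 h2).2
  -- the point
  obtain ⟨c₁, hc₁, hNT⟩ := hNT
  obtain ⟨c₂, hc₂, hnear⟩ := near_ne v f.discr hdf x₀
  obtain ⟨c, hc, hcc₁, hcc₂⟩ : ∃ c : Ω, c ≠ 0 ∧ v c ≤ v c₁ ∧ v c ≤ v c₂ := by
    rcases le_total (v c₁) (v c₂) with h | h
    · exact ⟨c₁, hc₁, le_rfl, h⟩
    · exact ⟨c₂, hc₂, h, le_rfl⟩
  obtain ⟨x, hxx, hxv, hxD, hxT⟩ := hPNT F Ω m M Γ fM xM zM DM Γ₀ v c hfg hm hmF hΓ hRamM hDM0
    hDMsp hkap hv hc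
  obtain ⟨x', hx'⟩ : ∃ x' : Ω, x' = i x := ⟨_, rfl⟩
  have hx'x₀ : x' ≠ x₀ := by
    rw [hx', ← hxM]
    exact fun h => hxx (i.injective h)
  have hx'v : v (x' - x₀) < v c := by
    rw [hx', ← hxM]
    exact hxv
  have hfib : (fib fM x).map i = fib f x' := by rw [fib_map, hfM, hx']
  have haev : ∀ y : Ω, aeval y (fib fM x) = 0 ↔ (fib f x').eval y = 0 := by
    intro y
    rw [← hfib, eval_map, aeval_def]
  have hdisc0 : f.discr.eval x' ≠ 0 := hnear x' hx'x₀ (hx'v.trans_le hcc₂)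
  have hfm : f.Monic := hRam.monic
  have hsep : (fib f x').Separable := ((hDSC.1 Ω f hfm (by omega)).1 x').1 hdisc0
  have hfibm : (fib f x').Monic := hfm.map _
  have hfibd : (fib f x').natDegree = m := by
    rw [← hdeg]
    exact hfm.natDegree_map _
  obtain ⟨z, hz, hprod⟩ := exists_roots m (fib f x') hfibm hfibd hsep
  have hroot : ∀ y : Ω, (fib f x').eval y = 0 ↔ ∃ j, y = z j := by
    intro y
    rw [hprod, eval_prod, Finset.prod_eq_zero_iff]
    constructor
    · rintro ⟨j, -, hj⟩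
      rw [eval_sub, eval_X, eval_C, sub_eq_zero] at hj
      exact ⟨j, hj⟩
    · rintro ⟨j, rfl⟩
      exact ⟨j, Finset.mem_univ _, by rw [eval_sub, eval_X, eval_C, sub_self]⟩
  have hdval : f.discr.eval x' = ∏ a, ∏ b ∈ Finset.Ioi a, (z b - z a) ^ 2 := by
    subst hdeg
    exact (hDSC.1 Ω f hfm (by omega)).2 x' z hprod
  -- elements which fix `M`
  have hfixM : ∀ g : Ω ≃ₐ[F] Ω, g ∈ M.fixingSubgroup → ∀ a : M, g (a : Ω) = a := by
    intro g hg a
    exact (IntermediateField.mem_fixingSubgroup_iff M g).1 hg a a.2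
  have hfixM' : ∀ g : Ω ≃ₐ[F] Ω, g ∉ M.fixingSubgroup → ∃ a : M, g (a : Ω) ≠ a := by
    intro g hg
    by_contra hcon
    push Not at hcon
    apply hg
    rw [IntermediateField.mem_fixingSubgroup_iff]
    intro a ha
    exact hcon ⟨a, ha⟩
  have hfixx : ∀ g : Ω ≃ₐ[F] Ω, g ∈ M.fixingSubgroup → g x' = x' := by
    intro g hg
    rw [hx']
    exact hfixM g hg x
  have hfixL : ∀ g : Ω ≃ₐ[F] Ω, g ∈ M.fixingSubgroup → g ∈ L.fixingSubgroup := by
    intro g hg
    rw [IntermediateField.mem_fixingSubgroup_iff]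
    intro a ha
    exact hfixM g hg ⟨a, hLM ha⟩
  have hgroot : ∀ g : Ω ≃ₐ[F] Ω, g ∈ M.fixingSubgroup → ∀ j, ∃ j', g (z j) = z j' := by
    intro g hg j
    rw [← hroot, ← haev]
    have h1 : aeval (z j) (fib fM x) = 0 := (haev _).2 ((hroot _).2 ⟨j, rfl⟩)
    have h2 : (g : Ω →+* Ω).comp i = i := RingHom.ext fun a => hfixM g hg a
    rw [aeval_def] at h1 ⊢
    have h3 := congrArg g h1
    rw [map_zero] at h3
    have h4 : g (eval₂ (algebraMap M Ω) (z j) (fib fM x)) =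
        eval₂ ((g : Ω →+* Ω).comp i) (g (z j)) (fib fM x) :=
      hom_eval₂ (fib fM x) i (g : Ω →+* Ω) (z j)
    rw [h4, h2] at h3
    exact h3
  have hψg : ∀ g : Ω ≃ₐ[F] Ω, g ∈ M.fixingSubgroup → ∀ j, g • ψ x' (z j) = ψ x' (g (z j)) := by
    intro g hg j
    rw [← hψ g (hfixL g hg) x' (z j) ((hroot _).2 ⟨j, rfl⟩), hfixx g hg]
  -- the square root of the discriminant
  have hα : (2 : F) ≠ 0 → ∃ α : Ω, α ^ 2 = ∏ a, ∏ b ∈ Finset.Ioi a, (z b - z a) ^ 2 ∧
      ∀ g ∈ Γ, g ∈ M.fixingSubgroup → g α = α := by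
    intro h2
    have : NeZero ((2 : ℕ) : Ω) := ⟨by exact_mod_cast h2Ω h2⟩
    obtain ⟨β, hβ⟩ := IsSepClosed.exists_pow_nat_eq (D.eval x') 2
    refine ⟨β * S.eval x', ?_, fun g hg hgM => ?_⟩
    · rw [← hdval, (hDS2 h2).1, eval_mul, eval_pow, mul_pow, hβ]
    · have h3 : D.eval x' = algebraMap M Ω (DM.eval x) := by
        rw [← hDM, hx', eval_map, eval₂_at_apply]
      have h4 : S.eval x' = i (SM.eval x) := by
        rw [← hSM, hx', eval_map, eval₂_at_apply]
      rw [map_mul, hxD h2 β (by rw [hβ, h3]) g hg (hfixM g hgM), h4]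
      congr 1
      exact hfixM g hgM (SM.eval x)
  -- the part of the fibre
  obtain ⟨O, hOne, hOu, hO⟩ := hORB F Ω m M Γ z hm0 (fun E hE φ hφ htr =>
    hM₀ M E hM₀M hMfin hE φ hφ htr) hz hgroot hα
  set a : A := ∑ j ∈ O, ψ x' (z j) with ha
  have hact : ∀ (g : Ω ≃ₐ[F] Ω) (σ : Equiv.Perm (Fin m)), g ∈ M.fixingSubgroup →
      (∀ j, g (z j) = z (σ j)) → g • a = ∑ j ∈ O, ψ x' (z (σ j)) := by
    intro g σ hg hσ
    rw [ha, Finset.smul_sum]
    refine Finset.sum_congr rfl fun j _ => ?_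
    rw [hψg g hg, hσ]
  have hafix : ∀ g ∈ Γ, g ∈ M.fixingSubgroup → g • a = a := by
    intro g hg hgM
    obtain ⟨σ, hσ⟩ := exists_perm z hz g g.injective (hgroot g hgM)
    rw [hact g σ hgM hσ, ha]
    refine sum_perm σ O ?_ (fun j => ψ x' (z j))
    intro j hj
    obtain ⟨j', hj', e⟩ := hO g hg hgM j hj
    rw [hσ] at e
    rw [hz e]
    exact hj'
  obtain ⟨n, hn0, hn⟩ := hE₁ M hE₁M a hafix
  -- the group
  let H : Subgroup (Equiv.Perm (Fin m)) :=
    { carrier := {σ | ∃ τ ∈ M.fixingSubgroup, (∀ j, τ (z j) = z (σ j)) ∧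
        ∀ g ∈ Γ, g ∉ M.fixingSubgroup → ∀ j, τ (g (z j)) = g (z j)}
      mul_mem' := by
        rintro σ σ' ⟨τ, hτ, h1, h2⟩ ⟨τ', hτ', h1', h2'⟩
        refine ⟨τ * τ', mul_mem hτ hτ', fun j => ?_, fun g hg hgM j => ?_⟩
        · rw [AlgEquiv.mul_apply, h1', h1]
          rfl
        · rw [AlgEquiv.mul_apply, h2' g hg hgM, h2 g hg hgM]
      one_mem' := ⟨1, one_mem _, fun j => rfl, fun g hg hgM j => rfl⟩
      inv_mem' := by
        rintro σ ⟨τ, hτ, h1, h2⟩
        have hinv : ∀ y, τ⁻¹ (τ y) = y := fun y => by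
          rw [← AlgEquiv.mul_apply, inv_mul_cancel, AlgEquiv.one_apply]
        refine ⟨τ⁻¹, inv_mem hτ, fun j => ?_, fun g hg hgM j => ?_⟩
        · have h3 := h1 (σ⁻¹ j)
          rw [← Equiv.Perm.mul_apply, mul_inv_cancel, Equiv.Perm.one_apply] at h3
          rw [← h3, hinv]
        · have h3 := h2 g hg hgM j
          rw [← h3, hinv, h3] }
  have hHtr : ∀ j j', ∃ h ∈ H, h j = j' := by
    intro j j'
    obtain ⟨τ, hτz, hτ⟩ := hxT (z j) (z j') ((haev _).2 ((hroot _).2 ⟨j, rfl⟩))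
      ((haev _).2 ((hroot _).2 ⟨j', rfl⟩))
    have hτ'M : τ.restrictScalars F ∈ M.fixingSubgroup := by
      rw [IntermediateField.mem_fixingSubgroup_iff]
      intro a ha
      exact τ.commutes ⟨a, ha⟩
    obtain ⟨σ, hσ⟩ := exists_perm z hz (τ.restrictScalars F) (τ.restrictScalars F).injective
      (hgroot _ hτ'M)
    refine ⟨σ, ⟨τ.restrictScalars F, hτ'M, hσ, fun g hg hgM l => ?_⟩, ?_⟩
    · exact hτ g (hfixM' g hgM) (z l) ((haev _).2 ((hroot _).2 ⟨l, rfl⟩))
    · apply hz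
      rw [← hσ j]
      exact hτz
  have hHn : ∀ h ∈ H, n • ∑ j ∈ O, ψ x' (z (h j)) = n • ∑ j ∈ O, ψ x' (z j) := by
    rintro σ ⟨τ, hτ, h1, h2⟩
    have h3 : ∀ g ∈ Γ, g ∉ M.fixingSubgroup → τ • g • a = g • a := by
      intro g hg hgM
      have h4 : τ * g = g * (g⁻¹ * τ * g) := by group
      have h5 : g⁻¹ * τ * g ∈ M.fixingSubgroup := by
        have h6 : M.fixingSubgroup.Normal := inferInstance
        have h7 := h6.conj_mem τ hτ g⁻¹
        rw [inv_inv] at h7
        exact h7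
      have h6 : ∀ j, (g⁻¹ * τ * g) (z j) = z ((1 : Equiv.Perm (Fin m)) j) := by
        intro j
        rw [AlgEquiv.mul_apply, AlgEquiv.mul_apply, h2 g hg hgM, ← AlgEquiv.mul_apply,
          inv_mul_cancel]
        rfl
      rw [← mul_smul, h4, mul_smul, hact _ 1 h5 h6]
      rfl
    have h4 := hn τ hτ h3
    rw [hact τ σ hτ h1] at h4
    exact h4
  obtain ⟨N, hN0, hN⟩ := hAVG (Fin m) A (fun j => ψ x' (z j)) O n H hn0 hHtr hHn
  -- the contradiction
  have hOss : O.map ⟨z, hz⟩ ⊂ Finset.univ.map ⟨z, hz⟩ :=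
    Finset.map_ssubset_map.2 (Finset.ssubset_univ_iff.2 hOu)
  refine hNT x' hx'x₀ (hx'v.trans_le hcc₁) (Finset.univ.map ⟨z, hz⟩) (O.map ⟨z, hz⟩) ?_ hOss
    (hOne.map) N hN0 ?_
  · intro y
    rw [Finset.mem_map, hroot]
    constructor
    · rintro ⟨j, -, rfl⟩
      exact ⟨j, rfl⟩
    · rintro ⟨j, rfl⟩
      exact ⟨j, Finset.mem_univ _, rfl⟩
  · rw [Finset.sum_map, Finset.sum_map, Finset.card_map]
    rw [Fintype.card_fin] at hN
    exact hN

end Pool.Agent.H63.LA
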