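import Pool.Agent.H29.LA.Targets

/-!
# A square root of the discriminant decides the parity (PAR)
-/

set_option autoImplicit false

open Polynomial IntermediateField
open scoped TensorProduct

noncomputable section

namespace Pool.Agent.H63.LA

open Pool.Agent.H29.LA

theorem pf_PAR : T_PAR := by
  intro Ω _ m z g σ α h2 hz hg hα hgα
  set d : Ω := (Matrix.vandermonde z).det with hd
  have hdv : d = ∏ i, ∏ j ∈ Finset.Ioi i, (z j - z i) := Matrix.det_vandermonde z
  have hd0 : d ≠ 0 := by
    rw [hd]
    exact Matrix.det_vandermonde_ne_zero_iff.2 hz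
  have hα2 : α ^ 2 = d ^ 2 := by
    rw [hα, hdv, ← Finset.prod_pow]
    refine Finset.prod_congr rfl fun i _ => ?_
    rw [← Finset.prod_pow]
  have hgd : g d = ((Equiv.Perm.sign σ : ℤ) : Ω) * d := by
    have h1 : g d = (Matrix.vandermonde fun i => g (z i)).det := by
      rw [hd, RingHom.map_det]
      congr 1
      ext i j
      simp [Matrix.vandermonde_apply]
    have h2 : (Matrix.vandermonde fun i => g (z i)) = (Matrix.vandermonde z).submatrix σ id := by
      ext i j
      simp [Matrix.vandermonde_apply, hg]
    rw [h1, h2, Matrix.det_permute]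
  have hgd' : g d = d := by
    rcases sq_eq_sq_iff_eq_or_eq_neg.1 hα2 with h | h
    · rw [← h]
      exact hgα
    · have h3 : d = -α := by rw [h, neg_neg]
      rw [h3, map_neg, hgα]
  have h4 : ((Equiv.Perm.sign σ : ℤ) : Ω) = 1 := by
    rw [hgd'] at hgd
    exact (mul_right_cancel₀ hd0 (by rw [one_mul]; exact hgd)).symm
  rcases Int.units_eq_one_or (Equiv.Perm.sign σ) with h | h
  · exact h
  · exfalso
    rw [h] at h4
    apply h2
    push_cast at h4
    linear_combination -h4

end Pool.Agent.H63.LA
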