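import Pool.Agent.H97.LA.Targets

/-!
The Fourier transform on `F_2 ^ m` with values in a group without elements of order two.
-/

set_option autoImplicit false

namespace Pool.Agent.H63.LA

open Finset Pool.Agent.H97.LA Pool.Agent.H42.XS

theorem sg_add (a b : ZMod 2) : sg (a + b) = sg a * sg b := by
  revert a b
  decide

theorem sg_zero : sg 0 = 1 := rfl

theorem sg_one : sg 1 = -1 := by decide

theorem pair_add {m : ℕ} (c a b : Fin m → ZMod 2) : pair c (a + b) = pair c a + pair c b := by
  unfold pair
  rw [← sum_add_distrib]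
  exact sum_congr rfl fun i _ => by rw [Pi.add_apply, mul_add]

theorem add_pair {m : ℕ} (a b c : Fin m → ZMod 2) : pair (a + b) c = pair a c + pair b c := by
  unfold pair
  rw [← sum_add_distrib]
  exact sum_congr rfl fun i _ => by rw [Pi.add_apply, add_mul]

theorem pair_zero {m : ℕ} (c : Fin m → ZMod 2) : pair c 0 = 0 := by
  unfold pair
  exact sum_eq_zero fun i _ => by rw [Pi.zero_apply, mul_zero]

theorem pair_single {m : ℕ} (x : Fin m → ZMod 2) (v : Fin m) :
    pair (Pi.single v 1) x = x v := by
  unfold pair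
  rw [sum_eq_single v]
  · rw [Pi.single_eq_same, one_mul]
  · intro b _ hb
    rw [Pi.single_eq_of_ne hb, zero_mul]
  · intro h
    exact absurd (mem_univ v) h

theorem sum_sg {m : ℕ} (x : Fin m → ZMod 2) (hx : x ≠ 0) :
    ∑ c : Fin m → ZMod 2, sg (pair c x) = 0 := by
  obtain ⟨v, hv⟩ : ∃ v, x v ≠ 0 := by
    by_contra h
    exact hx (funext fun v => by
      by_contra h2
      exact h ⟨v, h2⟩)
  have hv1 : x v = 1 := by
    have h2 : ∀ a : ZMod 2, a ≠ 0 → a = 1 := by decide
    exact h2 _ hv
  have h1 : ∑ c : Fin m → ZMod 2, sg (pair c x) =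
      ∑ c : Fin m → ZMod 2, sg (pair (c + Pi.single v 1) x) :=
    (Equiv.sum_comp (Equiv.addRight (Pi.single v 1 : Fin m → ZMod 2))
      (fun c => sg (pair c x))).symm
  have h2 : ∑ c : Fin m → ZMod 2, sg (pair (c + Pi.single v 1) x) =
      - ∑ c : Fin m → ZMod 2, sg (pair c x) := by
    rw [← sum_neg_distrib]
    refine sum_congr rfl fun c _ => ?_
    rw [add_pair, sg_add, pair_single, hv1, sg_one, mul_neg_one]
  rw [h2] at h1
  omega

theorem exb {m : ℕ} (H : Submodule (ZMod 2) (Fin m → ZMod 2)) (c : Fin m → ZMod 2) (hc : c ∉ H) :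
    ∃ b : Fin m → ZMod 2, (∀ h ∈ H, pair h b = 0) ∧ pair c b = 1 := by
  obtain ⟨f, hf1, hf2⟩ := H.exists_dual_map_eq_bot_of_notMem hc inferInstance
  have hsum : ∀ x : Fin m → ZMod 2, pair x (fun i => f (Pi.single i 1)) = f x := by
    intro x
    rw [LinearMap.pi_apply_eq_sum_univ f x]
    unfold pair
    refine sum_congr rfl fun i _ => ?_
    have hs : (Pi.single i 1 : Fin m → ZMod 2) = fun j => if i = j then 1 else 0 := by
      funext j
      rw [Pi.single_apply]
      simp only [eq_comm]
    show x i * f (Pi.single i 1) = _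
    rw [smul_eq_mul, hs]
  refine ⟨fun i => f (Pi.single i 1), ?_, ?_⟩
  · intro h hh
    have h1 : f h = 0 := by
      have h2 : f h ∈ H.map f := Submodule.mem_map_of_mem hh
      rw [hf2] at h2
      exact h2
    rw [hsum, h1]
  · have h1 := hf1
    have h2 : ∀ a : ZMod 2, a ≠ 0 → a = 1 := by decide
    have h3 := h2 _ h1
    rw [hsum, h3]

theorem pf_FOV : T_FOV := by
  intro m X _ hX F
  constructor
  · intro β
    have h1 : ∀ c : Fin m → ZMod 2,
        sg (pair c β) • (∑ β' : Fin m → ZMod 2, sg (pair c β') • F β') =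
        ∑ β' : Fin m → ZMod 2, sg (pair c (β + β')) • F β' := by
      intro c
      rw [smul_sum]
      refine sum_congr rfl fun β' _ => ?_
      rw [smul_smul, pair_add, sg_add]
    rw [sum_congr rfl fun c _ => h1 c, sum_comm]
    have h2 : ∀ β' : Fin m → ZMod 2, ∑ c : Fin m → ZMod 2, sg (pair c (β + β')) • F β' =
        if β' = β then (2 ^ m : ℤ) • F β else 0 := by
      intro β'
      rw [← sum_smul]
      split_ifs with h
      · subst h
        have h3 : β' + β' = 0 := by
          funext i
          have : ∀ a : ZMod 2, a + a = 0 := by decide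
          exact this _
        rw [h3]
        have h4 : ∑ c : Fin m → ZMod 2, sg (pair c 0) = (2 ^ m : ℤ) := by
          rw [sum_congr rfl fun c _ => by rw [pair_zero, sg_zero]]
          simp
        rw [h4]
      · rw [sum_sg, zero_smul]
        intro h3
        refine h ?_
        funext i
        have h4 := congrFun h3 i
        have h5 : ∀ a b : ZMod 2, a + b = 0 → b = a := by decide
        exact h5 _ _ h4
    rw [sum_congr rfl fun β' _ => h2 β', sum_ite_eq' univ β, if_pos (mem_univ β)]
  · intro H hF c hc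
    obtain ⟨b, hb1, hb2⟩ := exb H c hc
    refine hX _ ?_
    have h1 : ∑ β' : Fin m → ZMod 2, sg (pair c β') • F β' =
        ∑ β' : Fin m → ZMod 2, sg (pair c (β' + b)) • F (β' + b) :=
      (Equiv.sum_comp (Equiv.addRight b) (fun β' => sg (pair c β') • F β')).symm
    have h2 : ∑ β' : Fin m → ZMod 2, sg (pair c (β' + b)) • F (β' + b) =
        - ∑ β' : Fin m → ZMod 2, sg (pair c β') • F β' := by
      rw [← sum_neg_distrib]
      refine sum_congr rfl fun β' _ => ?_
      rw [hF (β' + b) β' fun h hh => by rw [pair_add, hb1 h hh, add_zero], pair_add, hb2, sg_add,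
        sg_one, mul_neg_one, neg_smul]
    nth_rewrite 1 [h1]
    rw [h2, neg_add_cancel]

end Pool.Agent.H63.LA
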